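import Pool.Agent.helper3.FS.SpecE
import Pool.Agent.helper55.RT.QDV
import Pool.Agent.helper28.RT.QBE

/-!
# KRN (block fs:, part E, helper63): THE KERNEL BOUND

If `F : W → V` is holomorphic between thick domains and `F' c = 0` then `bl V (F a) (F b) ≤ bl W a b * exp (-κ (1 - bl W a c) (1 - bl W b c))`, `κ` depends on the thickness only.
Tools: QMX, QDV, QBP, QFN, QLC, QSY, QDD, TDF, MOB, SPK (all proved).
-/

set_option autoImplicit false

open Complex Metric Set Filter Topology MeasureTheory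
open HY (UD T S hd UN RM)
open RT

noncomputable section

namespace FSE

theorem KRN_UDo : IsOpen UD := isOpen_ball

theorem KRN_UD0 : (0 : ℂ) ∈ UD := mem_ball_self one_pos

/-- Schwarz-Pick for maps into the closed disc. -/
theorem KRN_sp (hSPK : ED.SPK_stmt) {g : ℂ → ℂ} (hg : DifferentiableOn ℂ g UD) (hm : MapsTo g UD (closedBall 0 1)) {x y : ℂ}
    (hx : x ∈ UD) (hy : y ∈ UD) (hxy : ‖T x y‖ ≤ 1 / 2) {β : ℝ} (hβ : ‖g x‖ ≤ β) (hβ1 : β ≤ 1) : ‖g y‖ ≤ 1 - (1 - β) / 4 := by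
  obtain ⟨h1, -, h3, -, -, -⟩ := hSPK
  have hgx : ‖g x‖ ≤ 1 := mem_closedBall_zero_iff.1 (hm hx)
  have hgy : ‖g y‖ ≤ 1 := mem_closedBall_zero_iff.1 (hm hy)
  have key : ∀ r : ℝ, 0 < r → r < 1 → r * ‖g y‖ ≤ 1 - (1 - β) / 4 := by
    intro r hr hr1
    have hn : ∀ z : ℂ, ‖(r : ℂ) * g z‖ = r * ‖g z‖ := by
      intro z
      rw [norm_mul, Complex.norm_real, Real.norm_eq_abs, abs_of_pos hr]
    have hmU : MapsTo (fun z => (r : ℂ) * g z) UD UD := by
      intro z hz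
      have h4 : ‖g z‖ ≤ 1 := mem_closedBall_zero_iff.1 (hm hz)
      show (r : ℂ) * g z ∈ ball (0 : ℂ) 1
      rw [mem_ball_zero_iff, hn]
      nlinarith [norm_nonneg (g z)]
    have h5 := h1 (fun z => (r : ℂ) * g z) (hg.const_mul _) hmU x hx y hy
    have h6 := h3 _ (hmU hx) _ (hmU hy)
    simp only [hn] at h6
    have h7 : ‖T ((r : ℂ) * g x) ((r : ℂ) * g y)‖ ≤ 1 / 2 := le_trans h5 hxy
    have h8 : r * ‖g x‖ ≤ β := by nlinarith [norm_nonneg (g x)]
    have h9 : (1 - β) * (1 / 2) / 2 ≤ (1 - r * ‖g x‖) * (1 - ‖T ((r : ℂ) * g x) ((r : ℂ) * g y)‖) / 2 := by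
      have h10 : 0 ≤ 1 - β := by linarith
      have h11 : 1 - β ≤ 1 - r * ‖g x‖ := by linarith
      have h12 : (1 : ℝ) / 2 ≤ 1 - ‖T ((r : ℂ) * g x) ((r : ℂ) * g y)‖ := by linarith
      have := mul_le_mul h11 h12 (by norm_num) (by linarith)
      linarith
    linarith
  by_contra hcon
  push Not at hcon
  have hβ0 : 0 ≤ β := le_trans (norm_nonneg _) hβ
  have hq : 0 < 1 - (1 - β) / 4 := by linarith
  have hy0 : 0 < ‖g y‖ := by linarith
  have h4 := key ((1 - (1 - β) / 4) / ‖g y‖ / 2 + 1 / 2) (by positivity) (by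
    have : (1 - (1 - β) / 4) / ‖g y‖ < 1 := by rw [div_lt_one hy0]; exact hcon
    linarith)
  have h5 : ((1 - (1 - β) / 4) / ‖g y‖ / 2 + 1 / 2) * ‖g y‖ = ((1 - (1 - β) / 4) + ‖g y‖) / 2 := by
    field_simp
  rw [h5] at h4
  linarith

/-- comparison with the Green sum of finitely many points at which `g` is small. -/
theorem KRN_cmp (hMOB : HY.MOB_stmt) (hQMX : RT.QMX_stmt) (hSPK : ED.SPK_stmt) (g : ℂ → ℂ) (hg : DifferentiableOn ℂ g UD)
    (hm : MapsTo g UD (closedBall 0 1)) (Y : Finset ℂ) (hY : ∀ x ∈ Y, x ∈ UD ∧ 1 / 2 < ‖x‖) (β C : ℝ) (hβ : ∀ x ∈ Y, ‖g x‖ ≤ β)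
    (hβ1 : β ≤ 1) (hC : 0 < C) (hS : ∀ y ∈ UD, (∀ x ∈ Y, 1 / 2 ≤ ‖T x y‖) → ∑ x ∈ Y, Real.log (1 / ‖T x y‖) ≤ C) :
    ‖g 0‖ ≤ Real.exp (-((1 - β) / (4 * C) * ∑ x ∈ Y, Real.log (1 / ‖x‖))) := by
  obtain ⟨κ, hκ⟩ : ∃ κ : ℝ, κ = (1 - β) / (4 * C) := ⟨_, rfl⟩
  have hκ0 : 0 ≤ κ := by rw [hκ]; exact div_nonneg (by linarith) (by positivity)
  have hκC : κ * C = (1 - β) / 4 := by rw [hκ]; field_simp
  rw [← hκ]
  have key : ∀ ε : ℝ, 0 < ε → ‖g 0‖ * Real.exp (κ * ∑ x ∈ Y, Real.log (1 / ‖x‖)) ≤ Real.exp (κ * ε) := by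
    intro ε hε
    have hlog : ∀ᶠ t in 𝓝[<] (1 : ℝ), ∀ z ∈ Y, ∀ y : ℂ, ‖y‖ = t → Real.log (1 / ‖T z y‖) ≤ ε / (Y.card + 1) := by
      rw [Filter.eventually_all_finset]
      intro z hz
      exact RT.QBE_T hMOB z (hY z hz).1 _ (by positivity)
    have hin : ∀ᶠ t in 𝓝[<] (1 : ℝ), 0 < t := by
      have : ∀ᶠ t in 𝓝 (1 : ℝ), 0 < t := lt_mem_nhds one_pos
      exact this.filter_mono nhdsWithin_le_nhds
    obtain ⟨t, ht1, ht0, htlt⟩ := (hlog.and (hin.and self_mem_nhdsWithin)).exists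
    have ht1' : t < 1 := htlt
    have hcb : closedBall (0 : ℂ) t ⊆ UD := closedBall_subset_ball ht1'
    have hTc : ∀ x ∈ Y, ContinuousOn (fun y => ‖T x y‖) (closedBall 0 t) := by
      intro x hx
      exact ((hMOB x (hY x hx).1).2.2.2.1.continuousOn.mono hcb).norm
    set Ω : Set ℂ := ball 0 t ∩ ⋂ x ∈ Y, (ball 0 t ∩ (fun y => ‖T x y‖) ⁻¹' Ioi (1 / 2)) with hΩ
    have hΩo : IsOpen Ω := by
      refine isOpen_ball.inter (isOpen_biInter_finset fun x hx => ?_)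
      exact ((hTc x hx).mono ball_subset_closedBall).isOpen_inter_preimage isOpen_ball isOpen_Ioi
    have hcl : closure Ω ⊆ closedBall 0 t ∩ ⋂ x ∈ Y, (closedBall 0 t ∩ (fun y => ‖T x y‖) ⁻¹' Ici (1 / 2)) := by
      refine closure_minimal ?_ (isClosed_closedBall.inter (isClosed_biInter fun x hx => ?_))
      · intro y hy
        refine ⟨ball_subset_closedBall hy.1, ?_⟩
        rw [mem_iInter₂]
        intro x hx
        have h1 := (mem_iInter₂.1 hy.2) x hx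
        exact ⟨ball_subset_closedBall h1.1, le_of_lt (show (1 : ℝ) / 2 < ‖T x y‖ from h1.2)⟩
      · exact (hTc x hx).preimage_isClosed_of_isClosed isClosed_closedBall isClosed_Ici
    have hclU : closure Ω ⊆ UD := fun y hy => hcb (hcl hy).1
    have hcl2 : ∀ y ∈ closure Ω, ∀ x ∈ Y, 1 / 2 ≤ ‖T x y‖ := by
      intro y hy x hx
      exact ((mem_iInter₂.1 (hcl hy).2) x hx).2
    have hTne : ∀ y ∈ closure Ω, ∀ x ∈ Y, T x y ≠ 0 := by
      intro y hy x hx h0
      have := hcl2 y hy x hx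
      rw [h0, norm_zero] at this
      norm_num at this
    have hprod : ∀ y ∈ closure Ω, ∏ i : {x // x ∈ Y}, ‖T (i : ℂ) y‖ ^ (-κ) = Real.exp (κ * ∑ x ∈ Y, Real.log (1 / ‖T x y‖)) := by
      intro y hy
      rw [RT.QBE_prod (fun i : {x // x ∈ Y} => T (i : ℂ) y) (fun _ => -κ) (fun i => hTne y hy i i.2)]
      congr 1
      rw [Finset.mul_sum, ← Finset.sum_coe_sort Y]
      refine Finset.sum_congr rfl fun z _ => ?_
      rw [one_div, Real.log_inv]
      ring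
    have hfr : ∀ y ∈ frontier Ω, ‖g y‖ * ∏ i : {x // x ∈ Y}, ‖T (i : ℂ) y‖ ^ (-κ) ≤ Real.exp (κ * ε) := by
      intro y hy
      have hyc : y ∈ closure Ω := frontier_subset_closure hy
      have hyn : y ∉ Ω := by
        rw [frontier, hΩo.interior_eq] at hy
        exact hy.2
      have hyU := hclU hyc
      have hgy : ‖g y‖ ≤ 1 := mem_closedBall_zero_iff.1 (hm hyU)
      rw [hprod y hyc]
      by_cases hyt : ‖y‖ = t
      · have h1 : ∑ z ∈ Y, Real.log (1 / ‖T z y‖) ≤ ε := by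
          calc ∑ z ∈ Y, Real.log (1 / ‖T z y‖) ≤ ∑ z ∈ Y, ε / (Y.card + 1) := Finset.sum_le_sum fun z hz => ht1 z hz y hyt
            _ = Y.card * (ε / (Y.card + 1)) := by rw [Finset.sum_const, nsmul_eq_mul]
            _ ≤ ε := by
              rw [mul_div_assoc', div_le_iff₀ (by positivity)]
              nlinarith
        have h2 : Real.exp (κ * ∑ x ∈ Y, Real.log (1 / ‖T x y‖)) ≤ Real.exp (κ * ε) :=
          Real.exp_le_exp.2 (mul_le_mul_of_nonneg_left h1 hκ0)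
        calc ‖g y‖ * Real.exp (κ * ∑ x ∈ Y, Real.log (1 / ‖T x y‖)) ≤ 1 * Real.exp (κ * ε) :=
              mul_le_mul hgy h2 (Real.exp_pos _).le zero_le_one
          _ = _ := one_mul _
      · have hyt' : ‖y‖ < t := lt_of_le_of_ne (mem_closedBall_zero_iff.1 (hcl hyc).1) hyt
        have hyb : y ∈ ball (0 : ℂ) t := mem_ball_zero_iff.2 hyt'
        obtain ⟨x, hx, hxy⟩ : ∃ x ∈ Y, ‖T x y‖ ≤ 1 / 2 := by
          by_contra hcon
          push Not at hcon
          apply hyn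
          refine ⟨hyb, ?_⟩
          rw [mem_iInter₂]
          intro x hx
          exact ⟨hyb, hcon x hx⟩
        have h1 := KRN_sp hSPK hg hm (hY x hx).1 hyU hxy (hβ x hx) hβ1
        have h2 := hS y hyU (hcl2 y hyc)
        have h3 : ‖g y‖ ≤ Real.exp (-((1 - β) / 4)) := by
          have := Real.add_one_le_exp (-((1 - β) / 4))
          linarith
        have h4 : κ * ∑ x ∈ Y, Real.log (1 / ‖T x y‖) ≤ (1 - β) / 4 := by
          rw [← hκC]
          exact mul_le_mul_of_nonneg_left h2 hκ0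
        calc ‖g y‖ * Real.exp (κ * ∑ x ∈ Y, Real.log (1 / ‖T x y‖)) ≤ Real.exp (-((1 - β) / 4)) * Real.exp ((1 - β) / 4) :=
              mul_le_mul h3 (Real.exp_le_exp.2 h4) (Real.exp_pos _).le (Real.exp_pos _).le
          _ = 1 := by rw [← Real.exp_add, neg_add_cancel, Real.exp_zero]
          _ ≤ Real.exp (κ * ε) := Real.one_le_exp (by positivity)
    have hT0 : ∀ x : ℂ, ‖T x 0‖ = ‖x‖ := by
      intro x
      simp [HY.T]
    have h0 : (0 : ℂ) ∈ Ω := by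
      refine ⟨mem_ball_self ht0, ?_⟩
      rw [mem_iInter₂]
      intro x hx
      refine ⟨mem_ball_self ht0, ?_⟩
      show (1 : ℝ) / 2 < ‖T x 0‖
      rw [hT0]
      exact (hY x hx).2
    have hmax := hQMX {x // x ∈ Y} Ω g (fun i y => T (i : ℂ) y) (fun _ => -κ) (Real.exp (κ * ε)) hΩo
      (isBounded_ball.subset inter_subset_left) (hg.mono (subset_closure.trans hclU)) (hg.continuousOn.mono hclU)
      (fun i => (hMOB i (hY i i.2).1).2.2.2.1.mono (subset_closure.trans hclU))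
      (fun i => (hMOB i (hY i i.2).1).2.2.2.1.continuousOn.mono hclU) (fun i y hy => hTne y hy i i.2) hfr 0 h0
    rw [hprod 0 (subset_closure h0)] at hmax
    simp only [hT0] at hmax
    exact hmax
  by_cases hg0 : g 0 = 0
  · rw [hg0, norm_zero]
    exact (Real.exp_pos _).le
  have hgp : 0 < ‖g 0‖ := norm_pos_iff.2 hg0
  rw [← Real.log_le_iff_le_exp hgp]
  refine le_of_forall_pos_le_add fun ε hε => ?_
  have h1 := key (ε / (κ + 1)) (by positivity)
  have h2 := Real.log_le_log (by positivity) h1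
  rw [Real.log_mul hgp.ne' (Real.exp_pos _).ne', Real.log_exp, Real.log_exp] at h2
  have h3 : κ * (ε / (κ + 1)) ≤ ε := by
    rw [mul_div_assoc', div_le_iff₀ (by positivity)]
    nlinarith
  linarith

/-- finite sets of lifts seen from another point. -/
theorem KRN_pr (hQLC : RT.QLC_stmt) (hQFN : RT.QFN_stmt) (s : ℝ) (hs : 0 < s) (W : Set ℂ) (hW : TD s W) (a : ℂ) (ha : a ∈ W)
    (b : ℂ) (hb : b ∈ W) (y : ℂ) (hy : y ∈ UD) (hyW : rm W a y ∈ W) (hne : rm W a y ≠ b) (E : Finset ℂ) (hE : ∀ x ∈ E, x ∈ lf W a b) :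
    bl W (rm W a y) b ≤ ∏ x ∈ E, ‖T x y‖ ∧ ∑ x ∈ E, Real.log (1 / ‖T x y‖) ≤ gr W (rm W a y) b := by
  obtain ⟨eq, heq⟩ := hQLC s W hW a ha b hb y hy
  obtain ⟨-, -, -, -, -, -, hfin, -⟩ := (hQFN s W hs hW).1 (rm W a y) hyW b hb hne
  have hinj : Set.InjOn (fun z : {z // z ∈ E} => ((eq ⟨z, hE z z.2⟩ : lf W (rm W a y) b) : ℂ)) (E.attach : Set {z // z ∈ E}) := by
    intro z _ w _ hzw
    have h1 := eq.injective (Subtype.ext hzw)
    exact Subtype.ext (congrArg (fun u : lf W a b => (u : ℂ)) h1)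
  have h2 := hfin (E.attach.image (fun z : {z // z ∈ E} => ((eq ⟨z, hE z z.2⟩ : lf W (rm W a y) b) : ℂ))) (by
    intro w hw
    obtain ⟨z, -, rfl⟩ := Finset.mem_image.1 hw
    exact (eq ⟨z, hE z z.2⟩).2)
  rw [Finset.sum_image hinj, Finset.prod_image hinj] at h2
  have h3 : ∑ z ∈ E.attach, Real.log (1 / ‖((eq ⟨z, hE z z.2⟩ : lf W (rm W a y) b) : ℂ)‖) = ∑ z ∈ E, Real.log (1 / ‖T z y‖) := by
    rw [← Finset.sum_attach E]
    refine Finset.sum_congr rfl fun z _ => ?_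
    rw [heq ⟨z, hE z z.2⟩]
  have h4 : ∏ z ∈ E.attach, ‖((eq ⟨z, hE z z.2⟩ : lf W (rm W a y) b) : ℂ)‖ = ∏ z ∈ E, ‖T z y‖ := by
    rw [← Finset.prod_attach E]
    refine Finset.prod_congr rfl fun z _ => ?_
    rw [heq ⟨z, hE z z.2⟩]
  rw [h3, h4] at h2
  exact h2

/-- the Green sum is bounded away from its points. -/
theorem KRN_S (hMOB : HY.MOB_stmt) (hQLC : RT.QLC_stmt) (hQFN : RT.QFN_stmt) (hQDD : RT.QDD_stmt) (hTDF : RT.TDF_stmt) (s : ℝ) (hs : 0 < s) (hs1 : s ≤ 1) :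
    ∃ C : ℝ, 1 ≤ C ∧ ∀ (W : Set ℂ), TD s W → ∀ a ∈ W, ∀ c ∈ W, ∀ Y : Finset ℂ, (∀ x ∈ Y, x ∈ lf W a c) → ∀ y ∈ UD,
      (∀ x ∈ Y, 1 / 2 ≤ ‖T x y‖) → ∑ x ∈ Y, Real.log (1 / ‖T x y‖) ≤ C := by
  obtain ⟨C, hC0, hC⟩ := hQDD s hs hs1
  have hl4 : 0 < Real.log 4 := Real.log_pos (by norm_num)
  refine ⟨Real.log 4 + C + 1, by linarith, ?_⟩
  intro W hW a ha c hc Y hY y hy hTy
  obtain ⟨hUC, -, -, -, -, -, hrm⟩ := hTDF s W hW a ha
  -- off the lifts
  have hoff : ∀ y' ∈ UD, rm W a y' ≠ c → (∀ x ∈ Y, 1 / 4 ≤ ‖T x y'‖) → ∑ x ∈ Y, Real.log (1 / ‖T x y'‖) ≤ Real.log 4 + C := by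
    intro y' hy' hne hT4
    have hyW := (hrm y' hy').1
    obtain ⟨-, -, -, -, hlft, -, -⟩ := hTDF s W hW (rm W a y') hyW
    obtain ⟨-, -, -, z₀, hz₀U, hz₀, hz₀n⟩ := hlft c hc
    obtain ⟨eq, heq⟩ := hQLC s W hW a ha c hc y' hy'
    obtain ⟨x₀, hx₀⟩ := eq.surjective ⟨z₀, hz₀U, hz₀⟩
    have h1 := heq x₀
    rw [hx₀] at h1
    have h1' : pd W (rm W a y') c = ‖T (x₀ : ℂ) y'‖ := by rw [← hz₀n]; exact h1
    have h2 := (hC W hW (rm W a y') hyW c hc hne).1
    rw [h1'] at h2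
    by_cases hmem : (x₀ : ℂ) ∈ Y
    · have h3 := (KRN_pr hQLC hQFN s hs W hW a ha c hc y' hy' hyW hne Y hY).2
      have h4 : Real.log (1 / ‖T (x₀ : ℂ) y'‖) ≤ Real.log 4 := by
        have h5 := hT4 _ hmem
        refine Real.log_le_log (by positivity) ?_
        rw [div_le_iff₀ (by linarith)]
        linarith
      linarith
    · have h3 := (KRN_pr hQLC hQFN s hs W hW a ha c hc y' hy' hyW hne (insert (x₀ : ℂ) Y) (by
        intro x hx
        rcases Finset.mem_insert.1 hx with rfl | hx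
        · exact x₀.2
        · exact hY x hx)).2
      rw [Finset.sum_insert hmem] at h3
      linarith
  by_cases hyc : rm W a y = c
  swap
  · have h1 := hoff y hy hyc (fun x hx => by have := hTy x hx; linarith)
    linarith
  -- perturbation
  have hTc : ∀ x ∈ Y, ContinuousAt (fun y' => T x y') y := by
    intro x hx
    exact ((hMOB x (hY x hx).1).2.2.2.1.differentiableAt (KRN_UDo.mem_nhds hy)).continuousAt
  have hTne : ∀ x ∈ Y, ‖T x y‖ ≠ 0 := by
    intro x hx h0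
    have := hTy x hx
    rw [h0] at this
    norm_num at this
  have hSc : ContinuousAt (fun y' => ∑ x ∈ Y, Real.log (1 / ‖T x y'‖)) y := by
    refine tendsto_finsetSum _ fun x hx => ?_
    have h1 : ContinuousAt (fun y' => 1 / ‖T x y'‖) y := continuousAt_const.div (hTc x hx).norm (hTne x hx)
    exact h1.log (one_div_ne_zero (hTne x hx))
  have e1 : ∀ᶠ y' in 𝓝 y, ∑ x ∈ Y, Real.log (1 / ‖T x y‖) - 1 < ∑ x ∈ Y, Real.log (1 / ‖T x y'‖) :=
    hSc.eventually (lt_mem_nhds (by linarith))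
  have e2 : ∀ᶠ y' in 𝓝 y, ∀ x ∈ Y, 1 / 4 ≤ ‖T x y'‖ := by
    rw [Filter.eventually_all_finset]
    intro x hx
    have h1 : ∀ᶠ y' in 𝓝 y, 1 / 4 < ‖T x y'‖ := (hTc x hx).norm.eventually (lt_mem_nhds (by have := hTy x hx; linarith))
    exact h1.mono fun _ h => h.le
  have e3 : ∀ᶠ y' in 𝓝[≠] y, rm W a y' ≠ c := by
    have h1 : HasDerivAt (rm W a) (deriv (rm W a) y) y := (hUC.dif.differentiableAt (KRN_UDo.mem_nhds hy)).hasDerivAt
    exact h1.eventually_ne (hrm y hy).2.2.1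
  have e4 : ∀ᶠ y' in 𝓝[≠] y, y' ∈ UD := (KRN_UDo.mem_nhds hy |> fun h => nhdsWithin_le_nhds h)
  obtain ⟨y', h1, h2, h3, h4⟩ := ((e1.filter_mono nhdsWithin_le_nhds).and ((e2.filter_mono nhdsWithin_le_nhds).and (e3.and e4))).exists
  have h5 := hoff y' h4 h3 h2
  linarith

/-- the data of a holomorphic map: the pulled back Blaschke product. -/
theorem KRN_hol (hQBP : RT.QBP_stmt) (s : ℝ) (hs : 0 < s) (W V : Set ℂ) (F : ℂ → ℂ) (hW : TD s W) (hV : TD s V)
    (hF : DifferentiableOn ℂ F W) (hm : MapsTo F W V) (a : ℂ) (ha : a ∈ W) (b : ℂ) (hb : b ∈ V) :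
    ∃ B G : ℂ → ℂ, DifferentiableOn ℂ B UD ∧ MapsTo B UD UD ∧ DifferentiableOn ℂ G UD ∧ MapsTo G UD UD ∧
      (∀ y ∈ UD, ‖B (G y)‖ = bl V (F (rm W a y)) b) ∧ UC W a (rm W a) ∧ UC V (F a) (rm V (F a)) ∧ ∀ y ∈ UD, rm V (F a) (G y) = F (rm W a y) := by
  have hUCW : UC W a (rm W a) := Classical.epsilon_spec (hW.cov a ha)
  have hUCV : UC V (F a) (rm V (F a)) := Classical.epsilon_spec (hV.cov (F a) (hm ha))
  obtain ⟨G, hGd, hGm, hG0, hG⟩ := hUCV.lift (fun z => F (rm W a z))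
    (hF.comp hUCW.dif hUCW.map) (fun z hz => hm (hUCW.map hz)) 0 KRN_UD0 0 KRN_UD0 (by
      rw [hUCV.val, hUCW.val])
  obtain ⟨B, hBd, hBm, hB⟩ := hQBP s V hs hV (F a) (hm ha) b hb
  exact ⟨B, G, hBd, hBm, hGd, hGm, fun y hy => by rw [hB _ (hGm hy), hG y hy], hUCW, hUCV, hG⟩

/-- a double zero can be divided twice. -/
theorem KRN_two (hMOB : HY.MOB_stmt) (h : ℂ → ℂ) (hh : DifferentiableOn ℂ h UD) (hm : MapsTo h UD (closedBall 0 1)) (E : Finset ℂ)
    (hE : ∀ x ∈ E, x ∈ UD ∧ h x = 0 ∧ deriv h x = 0) : ‖h 0‖ ≤ (∏ x ∈ E, ‖x‖) ^ 2 := by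
  obtain ⟨g, hg1, hg2, hg3⟩ := RT.QDV_ind hMOB h hh E (fun x hx => ⟨(hE x hx).1, (hE x hx).2.1⟩)
  have hgm := hg3 hm
  have hgz : ∀ x ∈ E, x ∈ UD ∧ g x = 0 := by
    intro x hx
    obtain ⟨hxU, hx0, hxd⟩ := hE x hx
    refine ⟨hxU, ?_⟩
    set R : ℂ → ℂ := fun y => ∏ z ∈ E.erase x, T z y with hR
    set k : ℂ → ℂ := fun y => g y * R y / (1 - (starRingEnd ℂ) x * y) with hk
    have hRd : DifferentiableAt ℂ R x := by
      have : DifferentiableOn ℂ R UD := by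
        refine DifferentiableOn.fun_finsetProd fun z hz => ?_
        exact (hMOB z (hE z (Finset.mem_of_mem_erase hz)).1).2.2.2.1
      exact this.differentiableAt (KRN_UDo.mem_nhds hxU)
    have hgd : DifferentiableAt ℂ g x := hg1.differentiableAt (KRN_UDo.mem_nhds hxU)
    have hden : (1 : ℂ) - (starRingEnd ℂ) x * x ≠ 0 := RT.QDV_den hxU hxU
    have hkd : DifferentiableAt ℂ k x := by
      refine (hgd.mul hRd).div ?_ hden
      exact (differentiableAt_const _).sub ((differentiableAt_const _).mul differentiableAt_id)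
    have heq : h =ᶠ[𝓝 x] fun y => (y - x) * k y := by
      filter_upwards [KRN_UDo.mem_nhds hxU] with y hy
      rw [hg2 y hy, ← Finset.mul_prod_erase E (fun z => T z y) hx]
      show g y * (T x y * R y) = (y - x) * (g y * R y / (1 - (starRingEnd ℂ) x * y))
      unfold HY.T
      have h2 := RT.QDV_den hxU hy
      field_simp
    have hd : deriv h x = k x := by
      rw [heq.deriv_eq]
      have h1 : HasDerivAt (fun y : ℂ => (y - x) * k y) (1 * k x + (x - x) * deriv k x) x :=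
        ((hasDerivAt_id x).sub_const x).mul hkd.hasDerivAt
      rw [h1.deriv]
      ring
    rw [hxd] at hd
    have hk0 : g x * R x / (1 - (starRingEnd ℂ) x * x) = 0 := hd.symm
    rcases (div_eq_zero_iff.1 hk0) with h1 | h1
    · rcases mul_eq_zero.1 h1 with h2 | h2
      · exact h2
      · exfalso
        have : R x ≠ 0 := by
          rw [hR]
          show ∏ z ∈ E.erase x, T z x ≠ 0
          rw [Finset.prod_ne_zero_iff]
          intro z hz
          exact RT.QDV_ne (hE z (Finset.mem_of_mem_erase hz)).1 hxU (Finset.ne_of_mem_erase hz).symm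
        exact this h2
    · exact absurd h1 hden
  have h1 := (RT.QDV hMOB g E hg1 hgz).2 hgm
  have hT0 : ∀ x : ℂ, ‖T x 0‖ = ‖x‖ := by
    intro x
    simp [HY.T]
  rw [hg2 0 KRN_UD0, norm_mul, norm_prod]
  simp only [hT0]
  rw [sq]
  exact mul_le_mul_of_nonneg_right h1 (Finset.prod_nonneg fun x _ => norm_nonneg x)

/-- the value at a critical point. -/
theorem KRN_dbl (hMOB : HY.MOB_stmt) (hQBP : RT.QBP_stmt) (hQFN : RT.QFN_stmt) (s : ℝ) (hs : 0 < s) (W V : Set ℂ) (F : ℂ → ℂ) (c : ℂ)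
    (hW : TD s W) (hV : TD s V) (hF : DifferentiableOn ℂ F W) (hm : MapsTo F W V) (hc : c ∈ W) (hd : deriv F c = 0) (a : ℂ) (ha : a ∈ W) :
    bl V (F a) (F c) ≤ (bl W a c) ^ 2 := by
  have hdiag : bl V (F c) (F c) = 0 := by
    unfold RT.bl
    rw [if_pos ⟨hm hc, hm hc⟩, if_pos rfl]
  by_cases hac : a = c
  · rw [hac, hdiag]
    positivity
  obtain ⟨B, G, hBd, hBm, hGd, hGm, hBG, hUCW, hUCV, hG⟩ := KRN_hol hQBP s hs W V F hW hV hF hm a ha (F c) (hm hc)
  have hval : ‖B (G 0)‖ = bl V (F a) (F c) := by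
    rw [hBG 0 KRN_UD0, hUCW.val]
  rw [← hval]
  have hhd : DifferentiableOn ℂ (fun z => B (G z)) UD := hBd.comp hGd hGm
  have hhm : MapsTo (fun z => B (G z)) UD (closedBall 0 1) := fun z hz => ball_subset_closedBall (hBm (hGm hz))
  have hb0 : 0 ≤ bl W a c := ((hQFN s W hs hW).2 a c).1
  have key : ∀ ε : ℝ, 0 < ε → ‖B (G 0)‖ ≤ (bl W a c + ε) ^ 2 := by
    intro ε hε
    obtain ⟨E, hE1, hE2, -⟩ := ((hQFN s W hs hW).1 a ha c hc hac).2.2.2.2.2.2.2 ε hε
    have h1 := KRN_two hMOB (fun z => B (G z)) hhd hhm E (by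
      intro x hx
      obtain ⟨hxU, hxc⟩ := hE1 x hx
      refine ⟨hxU, ?_, ?_⟩
      · have h1 : ‖B (G x)‖ = 0 := by rw [hBG x hxU, hxc, hdiag]
        exact norm_eq_zero.1 h1
      · have hGx : deriv G x = 0 := by
          have hG' : HasDerivAt G (deriv G x) x := (hGd.differentiableAt (KRN_UDo.mem_nhds hxU)).hasDerivAt
          have hV' : HasDerivAt (rm V (F a)) (deriv (rm V (F a)) (G x)) (G x) :=
            (hUCV.dif.differentiableAt (KRN_UDo.mem_nhds (hGm hxU))).hasDerivAt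
          have hW' : HasDerivAt (rm W a) (deriv (rm W a) x) x := (hUCW.dif.differentiableAt (KRN_UDo.mem_nhds hxU)).hasDerivAt
          have hF' : HasDerivAt F (deriv F c) (rm W a x) := by
            rw [hxc]
            exact (hF.differentiableAt (hW.op.mem_nhds hc)).hasDerivAt
          have h2 := hV'.comp x hG'
          have h3 := hF'.comp x hW'
          have heq : (rm V (F a) ∘ G) =ᶠ[𝓝 x] (F ∘ rm W a) := by
            filter_upwards [KRN_UDo.mem_nhds hxU] with y hy using hG y hy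
          have h4 := h2.deriv
          rw [heq.deriv_eq, h3.deriv, hd, zero_mul] at h4
          rcases mul_eq_zero.1 h4.symm with h5 | h5
          · exact absurd h5 (hUCV.der _ (hGm hxU))
          · exact h5
        have hB' : HasDerivAt B (deriv B (G x)) (G x) := (hBd.differentiableAt (KRN_UDo.mem_nhds (hGm hxU))).hasDerivAt
        have hG' : HasDerivAt G (deriv G x) x := (hGd.differentiableAt (KRN_UDo.mem_nhds hxU)).hasDerivAt
        have h2 : HasDerivAt (fun z => B (G z)) (deriv B (G x) * deriv G x) x := hB'.comp x hG'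
        rw [h2.deriv, hGx, mul_zero])
    refine le_trans h1 ?_
    exact pow_le_pow_left₀ (Finset.prod_nonneg fun x _ => norm_nonneg x) hE2 2
  have hlim : Tendsto (fun ε : ℝ => (bl W a c + ε) ^ 2) (𝓝[>] 0) (𝓝 ((bl W a c) ^ 2)) := by
    have h : Tendsto (fun ε : ℝ => (bl W a c + ε) ^ 2) (𝓝 0) (𝓝 ((bl W a c + 0) ^ 2)) := Continuous.tendsto (by fun_prop) 0
    rw [add_zero] at h
    exact h.mono_left nhdsWithin_le_nhds
  refine ge_of_tendsto hlim ?_
  filter_upwards [self_mem_nhdsWithin] with ε hε using key ε hε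

theorem KRN (hMOB : HY.MOB_stmt) (hSPK : ED.SPK_stmt) (hQMX : RT.QMX_stmt) (hQLC : RT.QLC_stmt) (hQFN : RT.QFN_stmt) (hQSY : RT.QSY_stmt)
    (hQBP : RT.QBP_stmt) (hQDD : RT.QDD_stmt) (hTDF : RT.TDF_stmt) : KRN_stmt := by
  intro s hs hs1
  obtain ⟨C, hC1, hC⟩ := KRN_S hMOB hQLC hQFN hQDD hTDF s hs hs1
  have hC0 : 0 < C := by linarith
  have hκ4 : 1 / (4 * C) ≤ 1 / 4 := by
    rw [div_le_div_iff₀ (by positivity) (by norm_num)]
    linarith
  refine ⟨1 / (4 * C), by positivity, by linarith, ?_⟩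
  intro W V F hW hV hF hm c hc hd a ha b hb
  have hκ0 : 0 < 1 / (4 * C) := by positivity
  have hbb : ∀ x y : ℂ, 0 ≤ bl W x y ∧ bl W x y ≤ 1 := by
    intro x y
    obtain ⟨h1, h2, h3⟩ := (hQFN s W hs hW).2 x y
    exact ⟨h1, h2.trans h3⟩
  have hdiagV : ∀ z ∈ V, bl V z z = 0 := by
    intro z hz
    unfold RT.bl
    rw [if_pos ⟨hz, hz⟩, if_pos rfl]
  by_cases hab : a = b
  · rw [hab, hdiagV _ (hm hb)]
    exact mul_nonneg (hbb b b).1 (Real.exp_pos _).le
  by_cases hbc : b = c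
  · have h1 := KRN_dbl hMOB hQBP hQFN s hs W V F c hW hV hF hm hc hd a ha
    have h2 : bl W c c = 0 := by
      unfold RT.bl
      rw [if_pos ⟨hc, hc⟩, if_pos rfl]
    rw [hbc, h2, sub_zero, mul_one]
    refine le_trans h1 ?_
    rw [sq]
    refine mul_le_mul_of_nonneg_left ?_ (hbb a c).1
    have h3 := Real.add_one_le_exp (-(1 / (4 * C) * (1 - bl W a c)))
    have h4 : 1 / (4 * C) * (1 - bl W a c) ≤ 1 - bl W a c := by
      have := (hbb a c).2
      nlinarith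
    linarith
  -- the main case
  obtain ⟨B, G, hBd, hBm, hGd, hGm, hBG, hUCW, hUCV, hG⟩ := KRN_hol hQBP s hs W V F hW hV hF hm a ha (F b) (hm hb)
  have hval : ‖B (G 0)‖ = bl V (F a) (F b) := by
    rw [hBG 0 KRN_UD0, hUCW.val]
  rw [← hval]
  have hhd : DifferentiableOn ℂ (fun z => B (G z)) UD := hBd.comp hGd hGm
  have hhm : MapsTo (fun z => B (G z)) UD (closedBall 0 1) := fun z hz => ball_subset_closedBall (hBm (hGm hz))
  obtain ⟨-, -, -, hβpos, -, -, -, -⟩ := (hQFN s W hs hW).1 c hc b hb (Ne.symm hbc)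
  have hsymm : bl W c b = bl W b c := (hQSY s W hW c b).1
  rw [hsymm] at hβpos
  obtain ⟨β, hβ⟩ : ∃ β : ℝ, β = bl W b c := ⟨_, rfl⟩
  rw [← hβ] at hβpos ⊢
  have hβ1 : β ≤ 1 := by rw [hβ]; exact (hbb b c).2
  have hcrit : bl V (F c) (F b) ≤ β ^ 2 := by
    rw [(hQSY s V hV (F c) (F b)).1, hβ]
    exact KRN_dbl hMOB hQBP hQFN s hs W V F c hW hV hF hm hc hd b hb
  have hT0 : ∀ x : ℂ, ‖T x 0‖ = ‖x‖ := by
    intro x
    simp [HY.T]
  have hac0 := (hbb a c).1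
  have hac1 := (hbb a c).2
  have hab0 := (hbb a b).1
  have key : ∀ ε : ℝ, 0 < ε → ‖B (G 0)‖ ≤ (bl W a b + ε) * Real.exp (-(1 / (4 * C) * (1 - bl W a c) * (1 - β))) := by
    intro ε hε
    obtain ⟨E, hE1, hE2, -⟩ := ((hQFN s W hs hW).1 a ha b hb hab).2.2.2.2.2.2.2 ε hε
    obtain ⟨g, hg1, hg2, hg3⟩ := RT.QDV_ind hMOB (fun z => B (G z)) hhd E (by
      intro x hx
      obtain ⟨hxU, hxb⟩ := hE1 x hx
      refine ⟨hxU, ?_⟩
      have h1 : ‖B (G x)‖ = 0 := by rw [hBG x hxU, hxb, hdiagV _ (hm hb)]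
      exact norm_eq_zero.1 h1)
    have hgm := hg3 hhm
    -- at the lifts of the critical point
    have hgc : ∀ y ∈ lf W a c, ‖g y‖ ≤ β := by
      intro y hy
      obtain ⟨hyU, hyc⟩ := hy
      have h1 := (KRN_pr hQLC hQFN s hs W hW a ha b hb y hyU (by rw [hyc]; exact hc) (by rw [hyc]; exact Ne.symm hbc) E hE1).1
      rw [hyc, hsymm, ← hβ] at h1
      have h2 : ‖B (G y)‖ = ‖g y‖ * ∏ x ∈ E, ‖T x y‖ := by
        have := hg2 y hyU
        rw [show B (G y) = g y * ∏ x ∈ E, T x y from this, norm_mul, norm_prod]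
      rw [hBG y hyU, hyc] at h2
      rw [h2] at hcrit
      have h3 : ‖g y‖ * β ≤ β ^ 2 := le_trans (mul_le_mul_of_nonneg_left h1 (norm_nonneg _)) hcrit
      by_contra hcon
      push Not at hcon
      nlinarith
    have hg0 : ‖g 0‖ ≤ Real.exp (-(1 / (4 * C) * (1 - bl W a c) * (1 - β))) := by
      obtain ⟨-, -, -, -, hlft, -, hrm⟩ := hTDF s W hW a ha
      obtain ⟨-, -, -, x₀, hx₀U, hx₀c, hx₀n⟩ := hlft c hc
      by_cases hpd : pd W a c ≤ 1 / 2
      · have h1 := KRN_sp hSPK hg1 hgm hx₀U KRN_UD0 (by rw [hT0, hx₀n]; exact hpd) (hgc x₀ ⟨hx₀U, hx₀c⟩) hβ1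
        have h2 := Real.add_one_le_exp (-(1 / (4 * C) * (1 - bl W a c) * (1 - β)))
        have h3 : 1 / (4 * C) * (1 - bl W a c) * (1 - β) ≤ (1 - β) / 4 := by
          have h4 : 1 / (4 * C) * (1 - bl W a c) ≤ 1 / 4 := by
            have h5 : 1 / (4 * C) * (1 - bl W a c) ≤ 1 / (4 * C) * 1 := mul_le_mul_of_nonneg_left (by linarith) hκ0.le
            linarith
          have := mul_le_mul_of_nonneg_right h4 (show 0 ≤ 1 - β by linarith)
          linarith
        linarith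
      · push Not at hpd
        have hacne : a ≠ c := by
          intro h
          have h1 := (hTDF s W hW a ha).2.2.2.1
          rw [← h, h1] at hpd
          norm_num at hpd
        obtain ⟨-, -, hgr0, -, -, hexp, -, happ⟩ := (hQFN s W hs hW).1 a ha c hc hacne
        have hgain : 0 < gr W a c - (1 - bl W a c) := by
          rw [hexp]
          have := Real.add_one_lt_exp (show -gr W a c ≠ 0 by linarith)
          linarith
        obtain ⟨Y, hY1, -, hY2⟩ := happ _ hgain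
        have hY3 : 1 - bl W a c ≤ ∑ x ∈ Y, Real.log (1 / ‖x‖) := by linarith
        have h1 := KRN_cmp hMOB hQMX hSPK g hg1 hgm Y (by
          intro x hx
          obtain ⟨hxU, hxc⟩ := hY1 x hx
          refine ⟨hxU, lt_of_lt_of_le hpd ?_⟩
          have := (hrm x hxU).2.1
          rw [hxc] at this
          exact this) β C (fun x hx => hgc x (hY1 x hx)) hβ1 hC0 (hC W hW a ha c hc Y hY1)
        refine le_trans h1 (Real.exp_le_exp.2 ?_)
        have h2 : 1 / (4 * C) * (1 - bl W a c) * (1 - β) ≤ (1 - β) / (4 * C) * ∑ x ∈ Y, Real.log (1 / ‖x‖) := by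
          have h3 : 0 ≤ (1 - β) / (4 * C) := div_nonneg (by linarith) (by positivity)
          calc 1 / (4 * C) * (1 - bl W a c) * (1 - β) = (1 - β) / (4 * C) * (1 - bl W a c) := by ring
            _ ≤ _ := mul_le_mul_of_nonneg_left hY3 h3
        linarith
    have h1 : ‖B (G 0)‖ = ‖g 0‖ * ∏ x ∈ E, ‖x‖ := by
      have := hg2 0 KRN_UD0
      rw [show B (G 0) = g 0 * ∏ x ∈ E, T x 0 from this, norm_mul, norm_prod]
      simp only [hT0]
    rw [h1, mul_comm]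
    exact mul_le_mul hE2 hg0 (norm_nonneg _) (by linarith)
  have hlim : Tendsto (fun ε : ℝ => (bl W a b + ε) * Real.exp (-(1 / (4 * C) * (1 - bl W a c) * (1 - β)))) (𝓝[>] 0)
      (𝓝 (bl W a b * Real.exp (-(1 / (4 * C) * (1 - bl W a c) * (1 - β))))) := by
    have h : Tendsto (fun ε : ℝ => (bl W a b + ε) * Real.exp (-(1 / (4 * C) * (1 - bl W a c) * (1 - β)))) (𝓝 0)
        (𝓝 ((bl W a b + 0) * Real.exp (-(1 / (4 * C) * (1 - bl W a c) * (1 - β))))) := Continuous.tendsto (by fun_prop) 0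
    rw [add_zero] at h
    exact h.mono_left nhdsWithin_le_nhds
  refine ge_of_tendsto hlim ?_
  filter_upwards [self_mem_nhdsWithin] with ε hε using key ε hε

end FSE

end
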